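import Pool.Agent.W644.GN.Degree

set_option autoImplicit false

/-!
# Geodesic nets: flows, energies, blocks
-/

namespace Pool.Agent.R761.GN

open Finset Pool.Agent.W644.GN

/-! ## Energy of a family of unit vectors -/

theorem energy {κ : Type*} (E : Finset κ) (p q : κ → ℝ) (h : ∀ e ∈ E, p e ^ 2 + q e ^ 2 = 1) :
    ∑ e ∈ E, ∑ f ∈ E, ((p e - p f) ^ 2 + (q e - q f) ^ 2) =
      2 * ((E.card : ℝ) ^ 2 - (∑ e ∈ E, p e) ^ 2 - (∑ e ∈ E, q e) ^ 2) := by
  have h1 : ∀ e ∈ E, ∀ f ∈ E, (p e - p f) ^ 2 + (q e - q f) ^ 2 =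
      2 - 2 * (p e * p f) - 2 * (q e * q f) := by
    intro e he f hf
    have := h e he; have := h f hf
    nlinarith
  rw [Finset.sum_congr rfl fun e he => Finset.sum_congr rfl fun f hf => h1 e he f hf]
  simp only [Finset.sum_sub_distrib, Finset.sum_const, nsmul_eq_mul, ← Finset.mul_sum,
    ← Finset.sum_mul]
  ring

theorem energy_ge {κ : Type*} (E : Finset κ) (p q : κ → ℝ) {a b : κ} (ha : a ∈ E) (hb : b ∈ E) :
    2 * (p a - p b) ^ 2 ≤ ∑ e ∈ E, ∑ f ∈ E, ((p e - p f) ^ 2 + (q e - q f) ^ 2) := by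
  classical
  by_cases hab : a = b
  · subst hab
    have : 0 ≤ ∑ e ∈ E, ∑ f ∈ E, ((p e - p f) ^ 2 + (q e - q f) ^ 2) :=
      Finset.sum_nonneg fun _ _ => Finset.sum_nonneg fun _ _ => by positivity
    simpa using this
  · have h1 : ∀ e ∈ E, ∀ g ∈ E, (p e - p g) ^ 2 ≤ ∑ f ∈ E, ((p e - p f) ^ 2 + (q e - q f) ^ 2) := by
      intro e _ g hg
      have := Finset.single_le_sum (f := fun f => (p e - p f) ^ 2 + (q e - q f) ^ 2)
        (fun _ _ => by positivity) hg
      nlinarith [sq_nonneg (q e - q g)]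
    have h2 : ∑ e ∈ ({a, b} : Finset κ), ∑ f ∈ E, ((p e - p f) ^ 2 + (q e - q f) ^ 2) ≤
        ∑ e ∈ E, ∑ f ∈ E, ((p e - p f) ^ 2 + (q e - q f) ^ 2) := by
      refine Finset.sum_le_sum_of_subset_of_nonneg ?_ ?_
      · intro x hx
        simp only [Finset.mem_insert, Finset.mem_singleton] at hx
        rcases hx with rfl | rfl <;> assumption
      · intro _ _ _
        exact Finset.sum_nonneg fun _ _ => by positivity
    rw [Finset.sum_pair hab] at h2
    have h3 := h1 a ha b hb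
    have h4 := h1 b hb a ha
    nlinarith

theorem uy_diff {p q p' q' : ℝ} (h : p ^ 2 + q ^ 2 = 1) (h' : p' ^ 2 + q' ^ 2 = 1)
    (hq : 1 / 2 ≤ q) (hq' : 1 / 2 ≤ q') : |q - q'| ≤ 2 * |p - p'| := by
  have h1 : (q - q') * (q + q') = -((p - p') * (p + p')) := by nlinarith
  have h2 : |q - q'| * (q + q') = |p - p'| * |p + p'| := by
    rw [← abs_of_pos (show 0 < q + q' by linarith), ← abs_mul, h1, abs_neg, abs_mul]
  have h3 : |p + p'| ≤ 2 := by
    rw [abs_le]
    constructor <;> nlinarith [sq_nonneg (p - 1), sq_nonneg (p + 1), sq_nonneg (p' - 1),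
      sq_nonneg (p' + 1), sq_nonneg q, sq_nonneg q']
  nlinarith [abs_nonneg (q - q'), abs_nonneg (p - p'), mul_le_mul_of_nonneg_left h3 (abs_nonneg (p - p'))]

/-- Two families of `n` unit vectors with the same sum: their spreads are comparable. -/
theorem spread {κ : Type*} (E E' : Finset κ) (p q : κ → ℝ) (h : ∀ e ∈ E, p e ^ 2 + q e ^ 2 = 1)
    (h' : ∀ e ∈ E', p e ^ 2 + q e ^ 2 = 1) (hq : ∀ e ∈ E, 1 / 2 ≤ q e)
    (hcard : E'.card = E.card) (hp : ∑ e ∈ E', p e = ∑ e ∈ E, p e)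
    (hqs : ∑ e ∈ E', q e = ∑ e ∈ E, q e) {ε : ℝ} (hε0 : 0 ≤ ε)
    (hε : ∀ e ∈ E, ∀ f ∈ E, |p e - p f| ≤ ε) :
    ∀ e ∈ E', ∀ f ∈ E', |p e - p f| ≤ 2 * E.card * ε := by
  intro a ha b hb
  have h1 := energy_ge E' p q ha hb
  rw [energy E' p q h', hcard, hp, hqs, ← energy E p q h] at h1
  have h2 : ∑ e ∈ E, ∑ f ∈ E, ((p e - p f) ^ 2 + (q e - q f) ^ 2) ≤
      ∑ e ∈ E, ∑ f ∈ E, 5 * ε ^ 2 := by
    refine Finset.sum_le_sum fun e he => Finset.sum_le_sum fun f hf => ?_
    have h3 := hε e he f hf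
    have h4 := uy_diff (h e he) (h f hf) (hq e he) (hq f hf)
    have h5 : (p e - p f) ^ 2 ≤ ε ^ 2 := by
      rw [← sq_abs]; exact pow_le_pow_left₀ (abs_nonneg _) h3 2
    have h6 : (q e - q f) ^ 2 ≤ 4 * (p e - p f) ^ 2 := by
      rw [← sq_abs, ← sq_abs (p e - p f)]
      nlinarith [abs_nonneg (q e - q f), abs_nonneg (p e - p f)]
    linarith
  rw [Finset.sum_const, Finset.sum_const, nsmul_eq_mul, nsmul_eq_mul] at h2
  have h7 : (p a - p b) ^ 2 ≤ (2 * E.card * ε) ^ 2 := by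
    have : 0 ≤ ((E.card : ℝ) * ε) ^ 2 := sq_nonneg _
    nlinarith
  exact abs_le_of_sq_le_sq h7 (by positivity)

/-! ## Blocks -/

theorem blocks {ι : Type*} (X : Finset ι) (y w : ι → ℝ) (hinj : ∀ a b, y a = y b → a = b)
    (hw : ∀ v ∈ X, 0 ≤ w v) {τ T : ℝ} (hτ : 0 < τ) (hT : ∑ v ∈ X, w v ≤ T) (P : ι → Prop)
    [DecidablePred P] (B : ℕ)
    (hB : ∀ Z ⊆ X, ∀ f ∈ X, (∀ v ∈ Z, y f < y v) →
      (∀ v ∈ Z, ∀ u ∈ X, y u < y v → u ∈ Z ∨ y u ≤ y f) → ∑ v ∈ Z, w v < τ →
      (Z.filter P).card ≤ B) :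
    (X.filter P).card ≤ (⌊T / τ⌋₊ + 1) * (1 + B) := by
  classical
  set S : ι → ℝ := fun v => ∑ u ∈ X.filter (fun u => y u ≤ y v), w u with hS
  have hS0 : ∀ v, 0 ≤ S v := fun v => Finset.sum_nonneg fun u hu => hw u (Finset.mem_filter.1 hu).1
  have hST : ∀ v, S v ≤ T := fun v =>
    (Finset.sum_le_sum_of_subset_of_nonneg (Finset.filter_subset _ _) fun u hu _ => hw u hu).trans hT
  have hmono : ∀ u v, y u ≤ y v → S u ≤ S v := by
    intro u v huv
    refine Finset.sum_le_sum_of_subset_of_nonneg ?_ fun a ha _ => hw a (Finset.mem_filter.1 ha).1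
    intro a ha
    obtain ⟨h1, h2⟩ := Finset.mem_filter.1 ha
    exact Finset.mem_filter.2 ⟨h1, h2.trans huv⟩
  set l : ι → ℕ := fun v => ⌊S v / τ⌋₊ with hl
  have hlmono : ∀ u v, y u ≤ y v → l u ≤ l v := fun u v huv =>
    Nat.floor_mono (div_le_div_of_nonneg_right (hmono u v huv) hτ.le)
  have hlT : ∀ v, l v ∈ Finset.range (⌊T / τ⌋₊ + 1) := by
    intro v
    rw [Finset.mem_range]
    have : l v ≤ ⌊T / τ⌋₊ := Nat.floor_mono (div_le_div_of_nonneg_right (hST v) hτ.le)
    omega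
  have hfib : ∀ k ∈ Finset.range (⌊T / τ⌋₊ + 1), ((X.filter P).filter (fun v => l v = k)).card ≤
      1 + B := by
    intro k _
    set V := X.filter (fun v => l v = k) with hV
    by_cases hne : V.Nonempty
    · obtain ⟨f, hfV, hfmin⟩ := Finset.exists_min_image V y hne
      obtain ⟨hfX, hfk⟩ := Finset.mem_filter.1 hfV
      set Z := V.erase f with hZ
      have hlt : ∀ v ∈ Z, y f < y v := by
        intro v hv
        obtain ⟨h1, h2⟩ := Finset.mem_erase.1 hv
        exact lt_of_le_of_ne (hfmin v h2) fun h => h1 (hinj _ _ h).symm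
      have hlow : ∀ v ∈ Z, ∀ u ∈ X, y u < y v → u ∈ Z ∨ y u ≤ y f := by
        intro v hv u hu huv
        by_cases hc : y u ≤ y f
        · exact Or.inr hc
        · left
          push Not at hc
          have h1 := hlmono f u hc.le
          have h2 := hlmono u v huv.le
          have h3 := (Finset.mem_filter.1 (Finset.mem_erase.1 hv).2).2
          refine Finset.mem_erase.2 ⟨fun h => by rw [h] at hc; exact lt_irrefl _ hc,
            Finset.mem_filter.2 ⟨hu, by omega⟩⟩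
      have hsum : ∑ v ∈ Z, w v < τ := by
        by_cases hZe : Z.Nonempty
        · obtain ⟨g, hgZ, hgmax⟩ := Finset.exists_max_image Z y hZe
          have hgk : l g = k := (Finset.mem_filter.1 (Finset.mem_erase.1 hgZ).2).2
          have h1 : S f + ∑ v ∈ Z, w v ≤ S g := by
            have hd : Disjoint (X.filter (fun u => y u ≤ y f)) Z := by
              rw [Finset.disjoint_left]
              intro a ha haZ
              exact absurd (hlt a haZ) (not_lt.2 (Finset.mem_filter.1 ha).2)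
            rw [hS]
            simp only
            rw [← Finset.sum_union hd]
            refine Finset.sum_le_sum_of_subset_of_nonneg ?_
              fun a ha _ => hw a (Finset.mem_filter.1 ha).1
            intro a ha
            rcases Finset.mem_union.1 ha with ha | ha
            · obtain ⟨h1, h2⟩ := Finset.mem_filter.1 ha
              exact Finset.mem_filter.2 ⟨h1, h2.trans (hlt g hgZ).le⟩
            · exact Finset.mem_filter.2 ⟨(Finset.mem_filter.1 (Finset.mem_erase.1 ha).2).1,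
                hgmax a ha⟩
          have h2 : (k : ℝ) * τ ≤ S f := by
            rw [← le_div_iff₀ hτ, ← hfk]
            exact Nat.floor_le (div_nonneg (hS0 f) hτ.le)
          have h3 : S g < (k + 1) * τ := by
            rw [← div_lt_iff₀ hτ, ← hgk]
            exact Nat.lt_floor_add_one _
          linarith
        · rw [Finset.not_nonempty_iff_eq_empty.1 hZe]
          simpa using hτ
      have hZX : Z ⊆ X := (Finset.erase_subset _ _).trans (Finset.filter_subset _ _)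
      have h1 := hB Z hZX f hfX hlt hlow hsum
      have h2 : (X.filter P).filter (fun v => l v = k) ⊆ insert f (Z.filter P) := by
        intro v hv
        obtain ⟨hv1, hv2⟩ := Finset.mem_filter.1 hv
        obtain ⟨hv3, hv4⟩ := Finset.mem_filter.1 hv1
        by_cases hvf : v = f
        · exact Finset.mem_insert.2 (Or.inl hvf)
        · exact Finset.mem_insert.2 (Or.inr (Finset.mem_filter.2
            ⟨Finset.mem_erase.2 ⟨hvf, Finset.mem_filter.2 ⟨hv3, hv2⟩⟩, hv4⟩))
      have h3 := (Finset.card_le_card h2).trans (Finset.card_insert_le _ _)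
      omega
    · rw [Finset.not_nonempty_iff_eq_empty] at hne
      have : (X.filter P).filter (fun v => l v = k) = ∅ := by
        rw [Finset.eq_empty_iff_forall_notMem] at hne ⊢
        intro v hv
        obtain ⟨hv1, hv2⟩ := Finset.mem_filter.1 hv
        exact hne v (Finset.mem_filter.2 ⟨(Finset.mem_filter.1 hv1).1, hv2⟩)
      rw [this]
      simp
  rw [Finset.card_eq_sum_card_fiberwise (f := l) (t := Finset.range (⌊T / τ⌋₊ + 1))
    (fun v _ => hlT v)]
  refine (Finset.sum_le_sum hfib).trans ?_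
  rw [Finset.sum_const, Finset.card_range, smul_eq_mul]

/-! ## Gaps -/

theorem gap {ι : Type*} (Z : Finset ι) (c r : ι → ℝ) (hr : ∀ v ∈ Z, 0 ≤ r v) {α β : ℝ}
    (h : ∑ v ∈ Z, 2 * r v < β - α) :
    ∃ t, α < t ∧ t < β ∧ ∀ v ∈ Z, t < c v - r v ∨ c v + r v < t := by
  by_contra hcon
  push Not at hcon
  have h1 : Set.Ioo α β ⊆ ⋃ v ∈ Z, Set.Icc (c v - r v) (c v + r v) := by
    intro t ht
    obtain ⟨v, hv, h2, h3⟩ := hcon t ht.1 ht.2
    exact Set.mem_biUnion hv ⟨h2, h3⟩
  have h2 : MeasureTheory.volume (Set.Ioo α β) ≤ ∑ v ∈ Z, MeasureTheory.volume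
      (Set.Icc (c v - r v) (c v + r v)) :=
    (MeasureTheory.measure_mono h1).trans (MeasureTheory.measure_biUnion_finset_le _ _)
  simp only [Real.volume_Ioo, Real.volume_Icc] at h2
  rw [← ENNReal.ofReal_sum_of_nonneg (fun v hv => by linarith [hr v hv])] at h2
  have h3 : ∑ v ∈ Z, (c v + r v - (c v - r v)) = ∑ v ∈ Z, 2 * r v :=
    Finset.sum_congr rfl fun v _ => by ring
  rw [h3] at h2
  have h4 : 0 ≤ ∑ v ∈ Z, 2 * r v := Finset.sum_nonneg fun v hv => by linarith [hr v hv]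
  rw [ENNReal.ofReal_le_ofReal_iff h4] at h2
  linarith

end Pool.Agent.R761.GN
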