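import Pool.Agent.R761.GN.Basic

set_option autoImplicit false

/-!
# Geodesic nets: flows through sets of balanced vertices, restriction and shear
-/

namespace Pool.Agent.R761.GN

open Finset Pool.Agent.W644.GN

variable {ι : Type} [Fintype ι] [DecidableEq ι] (C : Cfg ι)

/-- the edges entering `X` from outside -/
noncomputable def Bin (X : Finset ι) : Finset (ι × ι) := by
  classical
  exact univ.filter (fun e => e.1 ∉ X ∧ e.2 ∈ X ∧ C.W e.1 e.2 ≠ 0)

/-- the edges leaving `X` -/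
noncomputable def Bout (X : Finset ι) : Finset (ι × ι) := by
  classical
  exact univ.filter (fun e => e.1 ∈ X ∧ e.2 ∉ X ∧ C.W e.1 e.2 ≠ 0)

theorem mem_Bin {X : Finset ι} {e : ι × ι} : e ∈ Bin C X ↔ e.1 ∉ X ∧ e.2 ∈ X ∧ C.W e.1 e.2 ≠ 0 := by
  classical
  simp [Bin]

theorem mem_Bout {X : Finset ι} {e : ι × ι} : e ∈ Bout C X ↔ e.1 ∈ X ∧ e.2 ∉ X ∧ C.W e.1 e.2 ≠ 0 := by
  classical
  simp [Bout]

theorem sum_Bin (X : Finset ι) (f : ι → ι → ℝ) (hf : ∀ a b, C.W a b = 0 → f a b = 0) :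
    ∑ e ∈ Bin C X, f e.1 e.2 = ∑ a, ∑ b, if a ∉ X ∧ b ∈ X then f a b else 0 := by
  classical
  unfold Bin
  rw [Finset.sum_filter, ← Finset.univ_product_univ, Finset.sum_product]
  refine Finset.sum_congr rfl fun a _ => Finset.sum_congr rfl fun b _ => ?_
  by_cases h : C.W a b = 0
  · rw [hf a b h]; simp
  · by_cases h2 : a ∉ X ∧ b ∈ X
    · rw [if_pos ⟨h2.1, h2.2, h⟩, if_pos h2]
    · rw [if_neg (fun h3 => h2 ⟨h3.1, h3.2.1⟩), if_neg h2]

theorem sum_Bout (X : Finset ι) (f : ι → ι → ℝ) (hf : ∀ a b, C.W a b = 0 → f a b = 0) :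
    ∑ e ∈ Bout C X, f e.1 e.2 = ∑ a, ∑ b, if a ∈ X ∧ b ∉ X then f a b else 0 := by
  classical
  unfold Bout
  rw [Finset.sum_filter, ← Finset.univ_product_univ, Finset.sum_product]
  refine Finset.sum_congr rfl fun a _ => Finset.sum_congr rfl fun b _ => ?_
  by_cases h : C.W a b = 0
  · rw [hf a b h]; simp
  · by_cases h2 : a ∈ X ∧ b ∉ X
    · rw [if_pos ⟨h2.1, h2.2, h⟩, if_pos h2]
    · rw [if_neg (fun h3 => h2 ⟨h3.1, h3.2.1⟩), if_neg h2]

/-- A quantity which is conserved at the vertices of `X` flows out of `X` as it flows in. -/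
theorem flow (X : Finset ι) (f : ι → ι → ℝ) (hf : ∀ a b, C.W a b = 0 → f a b = 0)
    (hbal : ∀ v ∈ X, ∑ b, f v b = ∑ a, f a v) :
    ∑ e ∈ Bout C X, f e.1 e.2 = ∑ e ∈ Bin C X, f e.1 e.2 := by
  classical
  rw [sum_Bin C X f hf, sum_Bout C X f hf]
  have h1 : ∑ a, ∑ b, (if a ∈ X then f a b else 0) = ∑ a, ∑ b, (if b ∈ X then f a b else 0) := by
    rw [Finset.sum_comm (f := fun a b => if b ∈ X then f a b else 0)]
    refine Finset.sum_congr rfl fun a _ => ?_
    by_cases h : a ∈ X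
    · simp only [h, if_true]
      exact hbal a h
    · simp [h]
  have h2 : ∀ a b, (if a ∈ X then f a b else 0) = (if a ∈ X ∧ b ∉ X then f a b else 0) +
      (if a ∈ X ∧ b ∈ X then f a b else 0) := by
    intro a b
    by_cases h : a ∈ X <;> by_cases h' : b ∈ X <;> simp [h, h']
  have h3 : ∀ a b, (if b ∈ X then f a b else 0) = (if a ∉ X ∧ b ∈ X then f a b else 0) +
      (if a ∈ X ∧ b ∈ X then f a b else 0) := by
    intro a b
    by_cases h : a ∈ X <;> by_cases h' : b ∈ X <;> simp [h, h']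
  simp only [h2, h3, Finset.sum_add_distrib] at h1
  linarith

/-- A steep balanced vertex with as many incoming as outgoing edges (at least two). -/
structure Good (v : ι) : Prop where
  dx : C.Dx v = 0
  dy : C.Dy v = 0
  deg : ∑ b, (if C.W v b ≠ 0 then (1 : ℝ) else 0) = ∑ a, (if C.W a v ≠ 0 then (1 : ℝ) else 0)
  two : ∃ a c, a ≠ c ∧ C.W a v ≠ 0 ∧ C.W c v ≠ 0
  so : ∀ b, C.W v b ≠ 0 → 1 / 2 ≤ C.uy v b
  si : ∀ a, C.W a v ≠ 0 → 1 / 2 ≤ C.uy a v

variable {C}

theorem ux0 {a b : ι} (h : C.W a b = 0) : C.ux a b = 0 := by simp [Cfg.ux, h]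
theorem uy0 {a b : ι} (h : C.W a b = 0) : C.uy a b = 0 := by simp [Cfg.uy, h]

theorem Good.bx {v : ι} (h : Good C v) : ∑ b, C.ux v b = ∑ a, C.ux a v := by
  have := h.dx
  unfold Cfg.Dx Cfg.Ox Cfg.Ix at this
  linarith

theorem Good.by_ {v : ι} (h : Good C v) : ∑ b, C.uy v b = ∑ a, C.uy a v := by
  have := h.dy
  unfold Cfg.Dy Cfg.Oy Cfg.Iy at this
  linarith

theorem card_eq_sum (E : Finset (ι × ι)) (hE : ∀ e ∈ E, C.W e.1 e.2 ≠ 0) :
    (E.card : ℝ) = ∑ e ∈ E, (if C.W e.1 e.2 ≠ 0 then (1 : ℝ) else 0) := by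
  rw [Finset.sum_congr rfl fun e he => if_pos (hE e he)]
  simp

theorem card_Bout {X : Finset ι} (hX : ∀ v ∈ X, Good C v) : (Bout C X).card = (Bin C X).card := by
  have h := flow C X (fun a b => if C.W a b ≠ 0 then (1 : ℝ) else 0)
    (fun a b h => by simp [h]) (fun v hv => (hX v hv).deg)
  have h1 := card_eq_sum (C := C) (Bout C X) (fun e he => ((mem_Bout C).1 he).2.2)
  have h2 := card_eq_sum (C := C) (Bin C X) (fun e he => ((mem_Bin C).1 he).2.2)
  have : ((Bout C X).card : ℝ) = (Bin C X).card := by rw [h1, h2]; exact h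
  exact_mod_cast this

/-- Comparison of the flow through a part of `X` with the flow through `X`. -/
theorem cross {X A Z : Finset ι} (hX : ∀ v ∈ X, Good C v) (hA : A ⊆ X)
    (hlow : ∀ v ∈ A, ∀ w ∈ X, C.W w v ≠ 0 → w ∈ A) (hZX : Z ⊆ X) (hZA : ∀ v ∈ Z, v ∉ A)
    (hZ : ∀ v ∈ Z, ∀ w ∈ X, C.W w v ≠ 0 → w ∈ Z ∨ w ∈ A) :
    (Bin C Z).card ≤ (Bin C X).card ∧ ((Bin C Z).card = (Bin C X).card →
      ∀ f : ι → ι → ℝ, (∀ a b, C.W a b = 0 → f a b = 0) → (∀ v ∈ X, ∑ b, f v b = ∑ a, f a v) →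
        ∑ e ∈ Bin C Z, f e.1 e.2 = ∑ e ∈ Bin C X, f e.1 e.2) := by
  classical
  set Cr := Bout C A ∪ (Bin C X).filter (fun e => e.2 ∉ A) with hCr
  have hdisj : Disjoint (Bout C A) ((Bin C X).filter (fun e => e.2 ∉ A)) := by
    rw [Finset.disjoint_left]
    intro e he he'
    exact ((mem_Bin C).1 (Finset.mem_filter.1 he').1).1 (hA ((mem_Bout C).1 he).1)
  have hBA : Bin C A = (Bin C X).filter (fun e => ¬ e.2 ∉ A) := by
    ext e
    rw [mem_Bin, Finset.mem_filter, mem_Bin]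
    constructor
    · rintro ⟨h1, h2, h3⟩
      exact ⟨⟨fun h => h1 (hlow _ h2 _ h h3), hA h2, h3⟩, fun h => h h2⟩
    · rintro ⟨⟨h1, h2, h3⟩, h4⟩
      exact ⟨fun h => h1 (hA h), by simpa using h4, h3⟩
  have hsum : ∀ f : ι → ι → ℝ, (∀ a b, C.W a b = 0 → f a b = 0) →
      (∀ v ∈ X, ∑ b, f v b = ∑ a, f a v) →
      ∑ e ∈ Cr, f e.1 e.2 = ∑ e ∈ Bin C X, f e.1 e.2 := by
    intro f hf hb
    rw [hCr, Finset.sum_union hdisj, flow C A f hf (fun v hv => hb v (hA hv)), hBA, add_comm]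
    exact Finset.sum_filter_add_sum_filter_not _ _ _
  have hcard : Cr.card = (Bin C X).card := by
    have h := hsum (fun a b => if C.W a b ≠ 0 then (1 : ℝ) else 0)
      (fun a b h => by simp [h]) (fun v hv => (hX v hv).deg)
    have h1 := card_eq_sum (C := C) Cr (fun e he => by
      rcases Finset.mem_union.1 he with h | h
      · exact ((mem_Bout C).1 h).2.2
      · exact ((mem_Bin C).1 (Finset.mem_filter.1 h).1).2.2)
    have h2 := card_eq_sum (C := C) (Bin C X) (fun e he => ((mem_Bin C).1 he).2.2)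
    have : (Cr.card : ℝ) = (Bin C X).card := by rw [h1, h2]; exact h
    exact_mod_cast this
  have hsub : Bin C Z ⊆ Cr := by
    intro e he
    obtain ⟨h1, h2, h3⟩ := (mem_Bin C).1 he
    rw [hCr, Finset.mem_union, mem_Bout, Finset.mem_filter, mem_Bin]
    by_cases hw : e.1 ∈ X
    · left
      rcases hZ _ h2 _ hw h3 with h | h
      · exact absurd h h1
      · exact ⟨h, hZA _ h2, h3⟩
    · right
      exact ⟨⟨hw, hZX h2, h3⟩, hZA _ h2⟩
  refine ⟨hcard ▸ Finset.card_le_card hsub, fun h f hf hb => ?_⟩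
  have : Bin C Z = Cr := Finset.eq_of_subset_of_card_le hsub (by omega)
  rw [this]
  exact hsum f hf hb

/-! ## Restriction to the edges at `X`, and shear -/

theorem N_shear (s xa ya xb yb xv yv : ℝ) :
    N (xa - s * ya) ya (xb - s * yb) yb (xv - s * yv) yv = N xa ya xb yb xv yv := by
  unfold N; ring

theorem Dp_shear (s xa ya xb yb xc yc xd yd t : ℝ) :
    Dp (xa - s * ya) ya (xb - s * yb) yb (xc - s * yc) yc (xd - s * yd) yd t =
      Dp xa ya xb yb xc yc xd yd t := by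
  unfold Dp; ring

variable (C)

/-- the edges of the net at `X`, in sheared coordinates -/
noncomputable def sub (X : Finset ι) (s : ℝ) : Cfg ι where
  x v := C.x v - s * C.y v
  y v := C.y v
  W a b := if a ∈ X ∨ b ∈ X then C.W a b else 0
  y_inj := C.y_inj
  W_nonneg a b := by
    split_ifs
    · exact C.W_nonneg a b
    · exact le_rfl
  W_up a b h := by
    split_ifs at h with h1
    · exact C.W_up a b h
    · exact absurd rfl h
  no_inside a b v h h1 h2 := by
    rw [N_shear]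
    split_ifs at h with h3
    · exact C.no_inside a b v h h1 h2
    · exact absurd rfl h
  no_cross a b c d h h' hne t h1 h2 h3 h4 := by
    rw [Dp_shear]
    split_ifs at h with h5
    · split_ifs at h' with h6
      · exact C.no_cross a b c d h h' hne t h1 h2 h3 h4
      · exact absurd rfl h'
    · exact absurd rfl h

variable {X : Finset ι} {s : ℝ}

theorem sub_ux (a b : ι) : (sub C X s).ux a b =
    if a ∈ X ∨ b ∈ X then C.ux a b - s * C.uy a b else 0 := by
  unfold Cfg.ux Cfg.uy sub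
  simp only
  split_ifs
  · ring
  · simp

theorem sub_uy (a b : ι) : (sub C X s).uy a b = if a ∈ X ∨ b ∈ X then C.uy a b else 0 := by
  unfold Cfg.uy sub
  simp only
  split_ifs
  · rfl
  · simp

theorem sub_W (a b : ι) : (sub C X s).W a b = if a ∈ X ∨ b ∈ X then C.W a b else 0 := rfl

theorem sub_J {v : ι} (hv : v ∈ X) : (sub C X s).J v = C.J v := by
  unfold Cfg.J Cfg.K
  simp only [sub_ux, sub_uy, hv, true_or, or_true, if_true]
  congr 1
  · refine Finset.sum_congr rfl fun a _ => Finset.sum_congr rfl fun c _ => ?_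
    congr 1; ring
  · refine Finset.sum_congr rfl fun a _ => Finset.sum_congr rfl fun c _ => ?_
    congr 1; ring

/-- total imbalance of a weight on the edges at `X` which is balanced on `X` -/
theorem total_le (g : ι → ι → ℝ) (hg : ∀ a b, ¬ (a ∈ X ∨ b ∈ X) → g a b = 0)
    (hg0 : ∀ a b, C.W a b = 0 → g a b = 0) (hbal : ∀ v ∈ X, ∑ b, g v b = ∑ a, g a v) :
    ∑ v, |(∑ b, g v b) - ∑ a, g a v| ≤ ∑ e ∈ Bin C X, |g e.1 e.2| + ∑ e ∈ Bout C X, |g e.1 e.2| := by
  classical
  rw [sum_Bin C X (fun a b => |g a b|) (fun a b h => by simp [hg0 a b h]),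
    sum_Bout C X (fun a b => |g a b|) (fun a b h => by simp [hg0 a b h])]
  have h1 : ∀ v, |(∑ b, g v b) - ∑ a, g a v| ≤
      (∑ b, if v ∉ X ∧ b ∈ X then |g v b| else 0) + ∑ a, if a ∈ X ∧ v ∉ X then |g a v| else 0 := by
    intro v
    by_cases hv : v ∈ X
    · rw [hbal v hv]
      simp [hv]
    · refine (abs_sub _ _).trans (add_le_add ?_ ?_)
      · refine (Finset.abs_sum_le_sum_abs _ _).trans (Finset.sum_le_sum fun b _ => ?_)
        by_cases hb : b ∈ X
        · simp [hv, hb]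
        · rw [hg v b (by simp [hv, hb])]; simp [hb]
      · refine (Finset.abs_sum_le_sum_abs _ _).trans (Finset.sum_le_sum fun b _ => ?_)
        by_cases hb : b ∈ X
        · simp [hv, hb]
        · rw [hg b v (by simp [hv, hb])]; simp [hb]
  refine (Finset.sum_le_sum fun v _ => h1 v).trans ?_
  rw [Finset.sum_add_distrib]
  refine add_le_add le_rfl (le_of_eq ?_)
  rw [Finset.sum_comm]

end Pool.Agent.R761.GN
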