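import Pool.Agent.R761.GN.Flow

set_option autoImplicit false

/-!
# Geodesic nets: the number of steep balanced vertices passed by `p` strands is bounded
-/

namespace Pool.Agent.R761.GN

open Finset Pool.Agent.W644.GN

variable {ι : Type} [Fintype ι] [DecidableEq ι] {C : Cfg ι}

/-- unit vectors which are steep: the wedge controls the difference of abscissas -/
theorem ux_le_K {p q p' q' : ℝ} (h : p ^ 2 + q ^ 2 = 1) (h' : p' ^ 2 + q' ^ 2 = 1)
    (hq : 1 / 2 ≤ q) (hq' : 1 / 2 ≤ q') : |p - p'| ≤ 2 * |p * q' - q * p'| := by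
  have hc : -1 / 2 ≤ p * p' + q * q' := by
    have h1 : p ^ 2 ≤ 3 / 4 := by nlinarith
    have h2 : p' ^ 2 ≤ 3 / 4 := by nlinarith
    have h3 : 1 / 4 ≤ q * q' := by nlinarith
    nlinarith [sq_nonneg (p + p')]
  have hk : (p * q' - q * p') ^ 2 = (1 - (p * p' + q * q')) * (1 + (p * p' + q * q')) := by
    have : (p * q' - q * p') ^ 2 + (p * p' + q * q') ^ 2 = (p ^ 2 + q ^ 2) * (p' ^ 2 + q' ^ 2) := by
      ring
    rw [h, h'] at this
    linarith
  have hc1 : p * p' + q * q' ≤ 1 := by nlinarith [sq_nonneg (p - p'), sq_nonneg (q - q')]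
  have h1 : (p - p') ^ 2 ≤ (2 * |p * q' - q * p'|) ^ 2 := by
    rw [mul_pow, sq_abs, hk]
    nlinarith [sq_nonneg (q - q')]
  have := abs_le_of_sq_le_sq h1 (by positivity)
  exact this

theorem Good.near {v : ι} (hv : Good C v)
    (hunit : ∀ a b, C.W a b ≠ 0 → C.ux a b ^ 2 + C.uy a b ^ 2 = 1) {g : ι} (hg : C.W g v ≠ 0) :
    (∀ b, C.W v b ≠ 0 → |C.ux v b - C.ux g v| ≤ 2 * C.J v) ∧
      (∀ a, C.W a v ≠ 0 → |C.ux a v - C.ux g v| ≤ 2 * C.J v) := by
  constructor
  · intro b hb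
    refine (ux_le_K (hunit _ _ hb) (hunit _ _ hg) (hv.so b hb) (hv.si g hg)).trans ?_
    have := C.oi hv.dx hv.dy hb hg
    unfold Cfg.K at this
    linarith
  · intro a ha
    refine (ux_le_K (hunit _ _ ha) (hunit _ _ hg) (hv.si a ha) (hv.si g hg)).trans ?_
    have := C.ii (v := v) (a := a) (c := g)
    unfold Cfg.K at this
    linarith

theorem Good.J_pos {v : ι} (hv : Good C v) : 0 < C.J v := by
  obtain ⟨a, c, hac, ha, hc⟩ := hv.two
  -- the two incoming edges are not parallel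
  have hK : C.K a v c v ≠ 0 := by
    intro h0
    have key : ∀ a c, a ≠ c → C.W a v ≠ 0 → C.W c v ≠ 0 → C.y a ≤ C.y c → C.K a v c v ≠ 0 := by
      intro a c hac ha hc hle h0
      have hlt : C.y a < C.y c := lt_of_le_of_ne hle fun h => hac (C.y_inj _ _ h)
      apply C.no_inside a v c ha hlt (C.W_up c v hc)
      have e : C.K a v c v = -(C.W a v * C.W c v) *
          N (C.x a) (C.y a) (C.x v) (C.y v) (C.x c) (C.y c) := by
        unfold Cfg.K Cfg.ux Cfg.uy N; ring
      rw [e] at h0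
      rcases mul_eq_zero.1 h0 with h | h
      · rw [neg_eq_zero] at h
        rcases mul_eq_zero.1 h with h | h
        · exact absurd h ha
        · exact absurd h hc
      · exact h
    rcases le_total (C.y a) (C.y c) with h | h
    · exact key a c hac ha hc h h0
    · refine key c a hac.symm hc ha h ?_
      have : C.K c v a v = - C.K a v c v := by unfold Cfg.K; ring
      rw [this, h0, neg_zero]
  exact lt_of_lt_of_le (abs_pos.2 hK) C.ii

/-- The sum of the local terms over `X` is bounded by the spread of the incoming directions. -/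
theorem sum_J {X : Finset ι} (hX : ∀ v ∈ X, Good C v)
    (hunit : ∀ a b, C.W a b ≠ 0 → C.ux a b ^ 2 + C.uy a b ^ 2 = 1) {D : ℝ} (hD0 : 0 ≤ D)
    (hD : ∀ e ∈ Bin C X, ∀ f ∈ Bin C X, |C.ux e.1 e.2 - C.ux f.1 f.2| ≤ D)
    (hne : (Bin C X).Nonempty) :
    ∑ v ∈ X, C.J v ≤ 60 * (Bin C X).card ^ 2 * ((Bin C X).card + 1) * D := by
  classical
  obtain ⟨e0, he0⟩ := hne
  set n := (Bin C X).card with hn
  have hn1 : 1 ≤ n := Finset.card_pos.2 ⟨e0, he0⟩
  have hn1' : (1 : ℝ) ≤ n := by exact_mod_cast hn1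
  have hBo := card_Bout hX
  have hinW : ∀ e ∈ Bin C X, C.W e.1 e.2 ≠ 0 := fun e he => ((mem_Bin C).1 he).2.2
  have houtW : ∀ e ∈ Bout C X, C.W e.1 e.2 ≠ 0 := fun e he => ((mem_Bout C).1 he).2.2
  have hinS : ∀ e ∈ Bin C X, 1 / 2 ≤ C.uy e.1 e.2 := fun e he =>
    (hX _ ((mem_Bin C).1 he).2.1).si _ (hinW e he)
  have houtS : ∀ e ∈ Bout C X, 1 / 2 ≤ C.uy e.1 e.2 := fun e he =>
    (hX _ ((mem_Bout C).1 he).1).so _ (houtW e he)
  have hsx := flow C X C.ux (fun a b h => ux0 h) (fun v hv => (hX v hv).bx)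
  have hsy := flow C X C.uy (fun a b h => uy0 h) (fun v hv => (hX v hv).by_)
  have hsp := spread (Bin C X) (Bout C X) (fun e => C.ux e.1 e.2) (fun e => C.uy e.1 e.2)
    (fun e he => hunit _ _ (hinW e he)) (fun e he => hunit _ _ (houtW e he)) hinS hBo hsx hsy hD0 hD
  -- the edges leaving `X` are close to `e0`
  have hout : ∀ e ∈ Bout C X, |C.ux e.1 e.2 - C.ux e0.1 e0.2| ≤ (2 * n + 1) * D := by
    intro e he
    have h1 : |(n : ℝ) * C.ux e.1 e.2 - ∑ f ∈ Bout C X, C.ux f.1 f.2| ≤ n * (2 * n * D) := by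
      have : (n : ℝ) * C.ux e.1 e.2 - ∑ f ∈ Bout C X, C.ux f.1 f.2 =
          ∑ f ∈ Bout C X, (C.ux e.1 e.2 - C.ux f.1 f.2) := by
        rw [Finset.sum_sub_distrib, Finset.sum_const, hBo, nsmul_eq_mul]
      rw [this]
      refine (Finset.abs_sum_le_sum_abs _ _).trans ?_
      refine (Finset.sum_le_sum fun f hf => hsp e he f hf).trans ?_
      rw [Finset.sum_const, hBo, nsmul_eq_mul]
    have h2 : |(n : ℝ) * C.ux e0.1 e0.2 - ∑ f ∈ Bin C X, C.ux f.1 f.2| ≤ n * D := by
      have : (n : ℝ) * C.ux e0.1 e0.2 - ∑ f ∈ Bin C X, C.ux f.1 f.2 =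
          ∑ f ∈ Bin C X, (C.ux e0.1 e0.2 - C.ux f.1 f.2) := by
        rw [Finset.sum_sub_distrib, Finset.sum_const, nsmul_eq_mul]
      rw [this]
      refine (Finset.abs_sum_le_sum_abs _ _).trans ?_
      refine (Finset.sum_le_sum fun f hf => hD e0 he0 f hf).trans ?_
      rw [Finset.sum_const, nsmul_eq_mul]
    rw [hsx] at h1
    have h3 : (n : ℝ) * |C.ux e.1 e.2 - C.ux e0.1 e0.2| ≤ n * ((2 * n + 1) * D) := by
      have h4 : (n : ℝ) * |C.ux e.1 e.2 - C.ux e0.1 e0.2| =
          |((n : ℝ) * C.ux e.1 e.2 - ∑ f ∈ Bin C X, C.ux f.1 f.2) -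
            ((n : ℝ) * C.ux e0.1 e0.2 - ∑ f ∈ Bin C X, C.ux f.1 f.2)| := by
        rw [← abs_of_pos (show (0 : ℝ) < n by linarith), ← abs_mul, abs_of_pos (show (0 : ℝ) < n by
          linarith)]
        congr 1; ring
      rw [h4]
      refine (abs_sub _ _).trans ?_
      linarith
    exact le_of_mul_le_mul_left h3 (by linarith)
  -- the sheared configuration
  set s : ℝ := C.ux e0.1 e0.2 / C.uy e0.1 e0.2 with hs
  have hy0 := hinS e0 he0
  have hs2 : |s| ≤ 2 := by
    rw [hs, abs_div, abs_of_pos (show 0 < C.uy e0.1 e0.2 by linarith), div_le_iff₀ (by linarith)]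
    have h1 : |C.ux e0.1 e0.2| ≤ 1 := by
      have := hunit _ _ (hinW e0 he0)
      rw [abs_le]; constructor <;> nlinarith [sq_nonneg (C.uy e0.1 e0.2)]
    linarith
  have hux : ∀ e : ι × ι, C.W e.1 e.2 ≠ 0 → 1 / 2 ≤ C.uy e.1 e.2 → ∀ d : ℝ,
      |C.ux e.1 e.2 - C.ux e0.1 e0.2| ≤ d → |C.ux e.1 e.2 - s * C.uy e.1 e.2| ≤ 5 * d := by
    intro e he hy d hd
    have h1 := uy_diff (hunit _ _ he) (hunit _ _ (hinW e0 he0)) hy hy0
    have h2 : C.ux e.1 e.2 - s * C.uy e.1 e.2 = (C.ux e.1 e.2 - C.ux e0.1 e0.2) -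
        s * (C.uy e.1 e.2 - C.uy e0.1 e0.2) := by
      have : s * C.uy e0.1 e0.2 = C.ux e0.1 e0.2 := by
        rw [hs]; field_simp
      linarith
    rw [h2]
    refine (abs_sub _ _).trans ?_
    rw [abs_mul]
    have := mul_le_mul hs2 h1 (abs_nonneg _) (by norm_num)
    linarith
  have hTx : (sub C X s).Tx ≤ 10 * n * (n + 1) * D := by
    have h1 := total_le C (X := X) (fun a b => (sub C X s).ux a b)
      (fun a b h => by rw [sub_ux, if_neg h]) (fun a b h => by
        rw [sub_ux, ux0 h, uy0 h]; simp) (fun v hv => by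
        simp only [sub_ux, hv, true_or, or_true, if_true, Finset.sum_sub_distrib, ← Finset.mul_sum]
        rw [(hX v hv).bx, (hX v hv).by_])
    refine h1.trans ?_
    have h2 : ∑ e ∈ Bin C X, |(sub C X s).ux e.1 e.2| ≤ ∑ e ∈ Bin C X, 5 * D := by
      refine Finset.sum_le_sum fun e he => ?_
      rw [sub_ux, if_pos (Or.inr ((mem_Bin C).1 he).2.1)]
      exact hux e (hinW e he) (hinS e he) D (hD e he e0 he0)
    have h3 : ∑ e ∈ Bout C X, |(sub C X s).ux e.1 e.2| ≤ ∑ e ∈ Bout C X, 5 * ((2 * n + 1) * D) := by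
      refine Finset.sum_le_sum fun e he => ?_
      rw [sub_ux, if_pos (Or.inl ((mem_Bout C).1 he).1)]
      exact hux e (houtW e he) (houtS e he) _ (hout e he)
    rw [Finset.sum_const, nsmul_eq_mul] at h2 h3
    rw [hBo] at h3
    refine (add_le_add h2 h3).trans (le_of_eq ?_)
    rw [← hn]; ring
  have hTy : (sub C X s).Ty ≤ 2 * n := by
    have h1 := total_le C (X := X) (fun a b => (sub C X s).uy a b)
      (fun a b h => by rw [sub_uy, if_neg h]) (fun a b h => by
        rw [sub_uy, uy0 h]; simp) (fun v hv => by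
        simp only [sub_uy, hv, true_or, or_true, if_true]
        rw [(hX v hv).by_])
    refine h1.trans ?_
    have hle : ∀ e : ι × ι, C.W e.1 e.2 ≠ 0 → |(sub C X s).uy e.1 e.2| ≤ 1 := by
      intro e he
      rw [sub_uy]
      split_ifs
      · have := hunit _ _ he
        rw [abs_le]; constructor <;> nlinarith [sq_nonneg (C.ux e.1 e.2)]
      · simp
    have h2 : ∑ e ∈ Bin C X, |(sub C X s).uy e.1 e.2| ≤ ∑ e ∈ Bin C X, (1 : ℝ) :=
      Finset.sum_le_sum fun e he => hle e (hinW e he)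
    have h3 : ∑ e ∈ Bout C X, |(sub C X s).uy e.1 e.2| ≤ ∑ e ∈ Bout C X, (1 : ℝ) :=
      Finset.sum_le_sum fun e he => hle e (houtW e he)
    rw [Finset.sum_const, nsmul_eq_mul, mul_one] at h2 h3
    rw [hBo] at h3
    rw [← hn] at h2 h3
    linarith
  have h1 : ∑ v ∈ X, C.J v ≤ ∑ v, (sub C X s).J v := by
    rw [Finset.sum_congr rfl fun v hv => (sub_J C (s := s) hv).symm]
    exact Finset.sum_le_sum_of_subset_of_nonneg (Finset.subset_univ _)
      fun v _ _ => (sub C X s).J_nonneg v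
  refine h1.trans ((sub C X s).sum_J_le.trans ?_)
  have hTx0 : 0 ≤ (sub C X s).Tx := Finset.sum_nonneg fun _ _ => abs_nonneg _
  have hTy0 : 0 ≤ (sub C X s).Ty := Finset.sum_nonneg fun _ _ => abs_nonneg _
  have h2 := mul_le_mul hTx hTy hTy0 (by positivity)
  nlinarith

/-- the bound -/
def Nb : ℕ → ℕ
  | 0 => 0
  | p + 1 => (540 * (p + 1) ^ 3 * (p + 2) + 1) * (1 + 2 * Nb p)

theorem Nb_mono (p : ℕ) : Nb p ≤ Nb (p + 1) := by
  change Nb p ≤ (540 * (p + 1) ^ 3 * (p + 2) + 1) * (1 + 2 * Nb p)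
  nlinarith [Nat.zero_le (540 * (p + 1) ^ 3 * (p + 2)), Nat.zero_le (Nb p),
    Nat.zero_le (540 * (p + 1) ^ 3 * (p + 2) * (1 + 2 * Nb p))]

/-- A set of steep balanced vertices with at most `p` edges entering it has at most `Nb p`
elements. -/
theorem main (hunit : ∀ a b, C.W a b ≠ 0 → C.ux a b ^ 2 + C.uy a b ^ 2 = 1) (p : ℕ) :
    ∀ X : Finset ι, (∀ v ∈ X, Good C v) → (Bin C X).card ≤ p → X.card ≤ Nb p := by
  classical
  induction p with
  | zero =>
    intro X hX hp
    rcases X.eq_empty_or_nonempty with rfl | hne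
    · simp
    · exfalso
      obtain ⟨v, hv, hmin⟩ := Finset.exists_min_image X C.y hne
      obtain ⟨a, c, hac, ha, hc⟩ := (hX v hv).two
      have h1 : (a, v) ∈ Bin C X := (mem_Bin C).2 ⟨fun h => absurd (C.W_up a v ha)
        (not_lt.2 (hmin a h)), hv, ha⟩
      have := Finset.card_pos.2 ⟨_, h1⟩
      omega
  | succ p ih =>
    intro X hX hp
    by_cases hlt : (Bin C X).card ≤ p
    · exact (ih X hX hlt).trans (Nb_mono p)
    have hcard : (Bin C X).card = p + 1 := by omega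
    have hne : (Bin C X).Nonempty := Finset.card_pos.1 (by omega)
    -- the spread
    obtain ⟨⟨e1, f1⟩, hef, hmax⟩ := Finset.exists_max_image (Bin C X ×ˢ Bin C X)
      (fun g => |C.ux g.1.1 g.1.2 - C.ux g.2.1 g.2.2|) (hne.product hne)
    obtain ⟨he1, hf1⟩ := Finset.mem_product.1 hef
    simp only at he1 hf1 hmax
    set D := |C.ux e1.1 e1.2 - C.ux f1.1 f1.2| with hD
    have hD0 : 0 ≤ D := abs_nonneg _
    have hDD : ∀ e ∈ Bin C X, ∀ f ∈ Bin C X, |C.ux e.1 e.2 - C.ux f.1 f.2| ≤ D :=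
      fun e he f hf => hmax (e, f) (Finset.mem_product.2 ⟨he, hf⟩)
    have hJ := sum_J hX hunit hD0 hDD hne
    rw [hcard] at hJ
    rcases X.eq_empty_or_nonempty with rfl | hXne
    · simp
    have hJpos : 0 < ∑ v ∈ X, C.J v := Finset.sum_pos (fun v hv => (hX v hv).J_pos) hXne
    have hDpos : 0 < D := by
      rcases hD0.lt_or_eq with h | h
      · exact h
      · exfalso
        rw [← h] at hJ
        simp only [mul_zero] at hJ
        linarith
    have hp0 : (0 : ℝ) < ((p + 1 : ℕ) : ℝ) := by positivity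
    set τ : ℝ := D / (9 * ((p + 1 : ℕ) : ℝ)) with hτ
    have hτ0 : 0 < τ := by positivity
    have hT : ∑ v ∈ X, C.J v ≤ ((540 * (p + 1) ^ 3 * (p + 2) : ℕ) : ℝ) * τ := by
      refine hJ.trans (le_of_eq ?_)
      rw [hτ]
      push_cast
      field_simp
      ring
    have hB := blocks X C.y C.J C.y_inj (fun v _ => C.J_nonneg v) hτ0 hT (fun _ => True) (2 * Nb p) ?_
    · rw [Finset.filter_true_of_mem (fun _ _ => trivial), mul_div_cancel_right₀ _ hτ0.ne',
        Nat.floor_natCast] at hB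
      exact hB
    intro Z hZX f hf hfZ hZlow hZJ
    rw [Finset.filter_true_of_mem (fun _ _ => trivial)]
    -- the part below
    set A := X.filter (fun v => C.y v ≤ C.y f) with hA
    have hAX : A ⊆ X := Finset.filter_subset _ _
    have hAlow : ∀ v ∈ A, ∀ w ∈ X, C.W w v ≠ 0 → w ∈ A := by
      intro v hv w hw hwv
      exact Finset.mem_filter.2 ⟨hw, (C.W_up w v hwv).le.trans (Finset.mem_filter.1 hv).2⟩
    have hZA : ∀ v ∈ Z, v ∉ A := fun v hv h =>
      absurd (hfZ v hv) (not_lt.2 (Finset.mem_filter.1 h).2)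
    have hZr : ∀ v ∈ Z, ∀ w ∈ X, C.W w v ≠ 0 → w ∈ Z ∨ w ∈ A := by
      intro v hv w hw hwv
      rcases hZlow v hv w hw (C.W_up w v hwv) with h | h
      · exact Or.inl h
      · exact Or.inr (Finset.mem_filter.2 ⟨hw, h⟩)
    obtain ⟨hc1, hc2⟩ := cross hX hAX hAlow hZX hZA hZr
    have hZG : ∀ v ∈ Z, Good C v := fun v hv => hX v (hZX hv)
    by_cases hZp : (Bin C Z).card ≤ p
    · have := ih Z hZG hZp; omega
    have hZc : (Bin C Z).card = (Bin C X).card := by omega
    have hsx := hc2 hZc C.ux (fun a b h => ux0 h) (fun v hv => (hX v hv).bx)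
    have hsy := hc2 hZc C.uy (fun a b h => uy0 h) (fun v hv => (hX v hv).by_)
    have hWX : ∀ e ∈ Bin C X, C.W e.1 e.2 ≠ 0 := fun e he => ((mem_Bin C).1 he).2.2
    have hWZ : ∀ e ∈ Bin C Z, C.W e.1 e.2 ≠ 0 := fun e he => ((mem_Bin C).1 he).2.2
    have hZS : ∀ e ∈ Bin C Z, 1 / 2 ≤ C.uy e.1 e.2 := fun e he =>
      (hZG _ ((mem_Bin C).1 he).2.1).si _ (hWZ e he)
    -- two entering edges of `Z` with different directions
    have hpair : ∃ e ∈ Bin C Z, ∃ g ∈ Bin C Z, 4 * τ < C.ux g.1 g.2 - C.ux e.1 e.2 := by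
      by_contra hcon
      push Not at hcon
      have h1 : ∀ e ∈ Bin C Z, ∀ g ∈ Bin C Z, |C.ux e.1 e.2 - C.ux g.1 g.2| ≤ 4 * τ := by
        intro e he g hg
        rw [abs_le]
        constructor <;> linarith [hcon e he g hg, hcon g hg e he]
      have h2 := spread (Bin C Z) (Bin C X) (fun e => C.ux e.1 e.2) (fun e => C.uy e.1 e.2)
        (fun e he => hunit _ _ (hWZ e he)) (fun e he => hunit _ _ (hWX e he)) hZS hZc.symm
        hsx.symm hsy.symm (by positivity) h1 e1 he1 f1 hf1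
      rw [hZc, hcard, ← hD] at h2
      have h3 : 2 * ((p + 1 : ℕ) : ℝ) * (4 * τ) = 8 / 9 * D := by
        rw [hτ]; field_simp; ring
      linarith
    obtain ⟨e, he, g, hg, hgap⟩ := hpair
    -- reference edges
    have hin : ∀ v : ι, ∃ a, v ∈ Z → C.W a v ≠ 0 := by
      intro v
      by_cases hv : v ∈ Z
      · obtain ⟨a, _, _, ha, _⟩ := (hZG v hv).two
        exact ⟨a, fun _ => ha⟩
      · exact ⟨v, fun h => absurd h hv⟩
    choose r hr using hin
    obtain ⟨t, ht1, ht2, ht3⟩ := gap Z (fun v => C.ux (r v) v) (fun v => 2 * C.J v)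
      (fun v _ => by have := C.J_nonneg v; positivity)
      (α := C.ux e.1 e.2) (β := C.ux g.1 g.2) (by
        have : ∑ v ∈ Z, 2 * (2 * C.J v) = 4 * ∑ v ∈ Z, C.J v := by
          rw [Finset.mul_sum]; exact Finset.sum_congr rfl fun v _ => by ring
        rw [this]
        linarith)
    set ZL := Z.filter (fun v => C.ux (r v) v + 2 * C.J v < t) with hZL
    set ZH := Z.filter (fun v => ¬ (C.ux (r v) v + 2 * C.J v < t)) with hZH
    have hLow : ∀ v ∈ ZL, (∀ b, C.W v b ≠ 0 → C.ux v b < t) ∧ ∀ a, C.W a v ≠ 0 → C.ux a v < t := by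
      intro v hv
      obtain ⟨hvZ, hvt⟩ := Finset.mem_filter.1 hv
      obtain ⟨n1, n2⟩ := (hZG v hvZ).near hunit (hr v hvZ)
      exact ⟨fun b hb => by have := abs_le.1 (n1 b hb); linarith [this.2],
        fun a ha => by have := abs_le.1 (n2 a ha); linarith [this.2]⟩
    have hHigh : ∀ v ∈ ZH, (∀ b, C.W v b ≠ 0 → t < C.ux v b) ∧ ∀ a, C.W a v ≠ 0 → t < C.ux a v := by
      intro v hv
      obtain ⟨hvZ, hvt⟩ := Finset.mem_filter.1 hv
      obtain ⟨n1, n2⟩ := (hZG v hvZ).near hunit (hr v hvZ)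
      have h3 : t < C.ux (r v) v - 2 * C.J v := (ht3 v hvZ).resolve_right hvt
      exact ⟨fun b hb => by have := abs_le.1 (n1 b hb); linarith [this.1],
        fun a ha => by have := abs_le.1 (n2 a ha); linarith [this.1]⟩
    have hZsplit : ∀ w ∈ Z, w ∈ ZL ∨ w ∈ ZH := by
      intro w hw
      by_cases h : C.ux (r w) w + 2 * C.J w < t
      · exact Or.inl (Finset.mem_filter.2 ⟨hw, h⟩)
      · exact Or.inr (Finset.mem_filter.2 ⟨hw, h⟩)
    have hLcard : ZL.card ≤ Nb p := by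
      refine ih ZL (fun v hv => hZG v (Finset.mem_filter.1 hv).1) ?_
      have hsub : Bin C ZL ⊆ (Bin C Z).erase g := by
        intro q hq
        obtain ⟨h1, h2, h3⟩ := (mem_Bin C).1 hq
        have h4 := (hLow _ h2).2 _ h3
        refine Finset.mem_erase.2 ⟨fun h => by rw [h] at h4; linarith, (mem_Bin C).2
          ⟨fun h => ?_, (Finset.mem_filter.1 h2).1, h3⟩⟩
        rcases hZsplit _ h with h5 | h5
        · exact h1 h5
        · have := (hHigh _ h5).1 _ h3
          linarith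
      have := Finset.card_le_card hsub
      rw [Finset.card_erase_of_mem hg] at this
      omega
    have hHcard : ZH.card ≤ Nb p := by
      refine ih ZH (fun v hv => hZG v (Finset.mem_filter.1 hv).1) ?_
      have hsub : Bin C ZH ⊆ (Bin C Z).erase e := by
        intro q hq
        obtain ⟨h1, h2, h3⟩ := (mem_Bin C).1 hq
        have h4 := (hHigh _ h2).2 _ h3
        refine Finset.mem_erase.2 ⟨fun h => by rw [h] at h4; linarith, (mem_Bin C).2
          ⟨fun h => ?_, (Finset.mem_filter.1 h2).1, h3⟩⟩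
        rcases hZsplit _ h with h5 | h5
        · have := (hLow _ h5).1 _ h3
          linarith
        · exact h1 h5
      have := Finset.card_le_card hsub
      rw [Finset.card_erase_of_mem he] at this
      omega
    have h5 : Z.card = ZL.card + ZH.card :=
      (Finset.card_filter_add_card_filter_not (s := Z) _).symm
    omega

end Pool.Agent.R761.GN
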