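import Pool.Agent.R761.GN.Main

set_option autoImplicit false

/-!
# Geodesic nets: one sweep
-/

namespace Pool.Agent.R761.GN

open Finset Pool.Agent.W644.GN

variable {ι : Type} [Fintype ι] [DecidableEq ι] {C : Cfg ι}

theorem sq_near {p q p' q' : ℝ} (h : p ^ 2 + q ^ 2 = 1) (h' : p' ^ 2 + q' ^ 2 = 1) :
    |p ^ 2 - p' ^ 2| ≤ |p * q' - q * p'| := by
  have h1 : p ^ 2 - p' ^ 2 = (p * q' - q * p') * (p * q' + q * p') := by
    have : p ^ 2 - p' ^ 2 = p ^ 2 * (p' ^ 2 + q' ^ 2) - p' ^ 2 * (p ^ 2 + q ^ 2) := by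
      rw [h, h']; ring
    rw [this]; ring
  rw [h1, abs_mul]
  have h2 : |p * q' + q * p'| ≤ 1 := by
    have : (p * q' + q * p') ^ 2 ≤ 1 ^ 2 := by
      have : (p * q' + q * p') ^ 2 + (p * p' - q * q') ^ 2 = (p ^ 2 + q ^ 2) * (p' ^ 2 + q' ^ 2) := by
        ring
      rw [h, h'] at this
      nlinarith [sq_nonneg (p * p' - q * q')]
    exact abs_le_of_sq_le_sq this (by norm_num)
  have := mul_le_mul_of_nonneg_left h2 (abs_nonneg (p * q' - q * p'))
  linarith

theorem exists_in {v : ι} (hy : C.Dy v = 0) (h : (∃ b, C.W v b ≠ 0) ∨ ∃ a, C.W a v ≠ 0) :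
    (∃ a, C.W a v ≠ 0) ∧ ∃ b, C.W v b ≠ 0 := by
  have hy' : C.Oy v = C.Iy v := by unfold Cfg.Dy at hy; linarith
  have key1 : (∃ b, C.W v b ≠ 0) → 0 < C.Oy v := by
    rintro ⟨b, hb⟩
    exact lt_of_lt_of_le (C.uy_pos hb) (Finset.single_le_sum (f := fun d => C.uy v d)
      (fun _ _ => C.uy_nonneg _ _) (Finset.mem_univ b))
  have key2 : (∃ a, C.W a v ≠ 0) → 0 < C.Iy v := by
    rintro ⟨b, hb⟩
    exact lt_of_lt_of_le (C.uy_pos hb) (Finset.single_le_sum (f := fun d => C.uy d v)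
      (fun _ _ => C.uy_nonneg _ _) (Finset.mem_univ b))
  have key3 : ¬ (∃ b, C.W v b ≠ 0) → C.Oy v = 0 := by
    intro h
    push Not at h
    exact Finset.sum_eq_zero fun b _ => uy0 (h b)
  have key4 : ¬ (∃ a, C.W a v ≠ 0) → C.Iy v = 0 := by
    intro h
    push Not at h
    exact Finset.sum_eq_zero fun b _ => uy0 (h b)
  by_cases h1 : ∃ a, C.W a v ≠ 0
  · refine ⟨h1, ?_⟩
    by_contra h2
    have := key2 h1
    have := key3 h2
    linarith
  · exfalso
    have h2 : ∃ b, C.W v b ≠ 0 := h.resolve_right h1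
    have := key1 h2
    have := key4 h1
    linarith

/-- The number of balanced vertices with an edge which is steep in the sweep direction is bounded. -/
theorem sweep_count (hunit : ∀ a b, C.W a b ≠ 0 → C.ux a b ^ 2 + C.uy a b ^ 2 = 1) {I : ℝ}
    (hI : 0 ≤ I) (hTx : C.Tx ≤ I) (hTy : C.Ty ≤ I) (U : Finset ι)
    (hU : ∀ v, v ∉ U → C.Dx v = 0 ∧ C.Dy v = 0)
    (hdeg : ∀ v, v ∉ U → 3 ≤ (univ.filter (fun b => C.W v b ≠ 0)).card +
      (univ.filter (fun a => C.W a v ≠ 0)).card) (P : ι → Prop) [DecidablePred P]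
    (hP : ∀ v, P v → (∃ b, C.W v b ≠ 0 ∧ C.ux v b ^ 2 ≤ 1 / 2) ∨
      ∃ a, C.W a v ≠ 0 ∧ C.ux a v ^ 2 ≤ 1 / 2) :
    (univ.filter P).card ≤ (⌊192 * I ^ 2 * (I + 1) + U.card⌋₊ + 1) * (1 + Nb ⌊2 * I⌋₊) := by
  classical
  have hTx0 : 0 ≤ C.Tx := Finset.sum_nonneg fun _ _ => abs_nonneg _
  have hTy0 : 0 ≤ C.Ty := Finset.sum_nonneg fun _ _ => abs_nonneg _
  have hJ : ∑ v, C.J v ≤ 3 * I ^ 2 := by
    refine C.sum_J_le.trans ?_
    have := mul_le_mul hTx hTy hTy0 hI
    nlinarith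
  set τ : ℝ := 1 / (64 * (I + 1)) with hτ
  have hI1 : 0 < I + 1 := by linarith
  have hτ0 : 0 < τ := by positivity
  have hτI : τ * (I + 1) = 1 / 64 := by rw [hτ]; field_simp
  have hτ1 : τ ≤ 1 / 64 := by nlinarith
  set w : ι → ℝ := fun v => C.J v + if v ∈ U then τ else 0 with hw
  have hw0 : ∀ v ∈ (univ : Finset ι), 0 ≤ w v := by
    intro v _
    have := C.J_nonneg v
    simp only [hw]
    split_ifs <;> linarith
  have hT : ∑ v, w v ≤ 3 * I ^ 2 + U.card * τ := by
    simp only [hw, Finset.sum_add_distrib]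
    rw [Finset.sum_ite_mem, Finset.univ_inter, Finset.sum_const, nsmul_eq_mul]
    linarith
  have hB := blocks univ C.y w C.y_inj hw0 hτ0 hT P (Nb ⌊2 * I⌋₊) ?_
  · have e : (3 * I ^ 2 + U.card * τ) / τ = 192 * I ^ 2 * (I + 1) + U.card := by
      rw [hτ]; field_simp; ring
    rw [e] at hB
    exact hB
  intro Z _ f _ hfZ hlow hZ
  have hsingle : ∀ v ∈ Z, w v < τ := fun v hv => lt_of_le_of_lt
    (Finset.single_le_sum (fun u _ => hw0 u (Finset.mem_univ u)) hv) hZ
  have hZU : ∀ v ∈ Z, v ∉ U := by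
    intro v hv hvU
    have h1 := hsingle v hv
    simp only [hw, if_pos hvU] at h1
    linarith [C.J_nonneg v]
  have hJlt : ∀ v ∈ Z, C.J v < τ := by
    intro v hv
    have h1 := hsingle v hv
    simp only [hw, if_neg (hZU v hv)] at h1
    linarith
  have hZJ : ∑ v ∈ Z, C.J v < τ := by
    refine lt_of_le_of_lt (Finset.sum_le_sum fun v hv => ?_) hZ
    simp only [hw, if_neg (hZU v hv)]
    linarith
  have hbal : ∀ v ∈ Z, C.Dx v = 0 ∧ C.Dy v = 0 := fun v hv => hU v (hZU v hv)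
  have hedge : ∀ v ∈ Z, (∃ a, C.W a v ≠ 0) ∧ ∃ b, C.W v b ≠ 0 := by
    intro v hv
    refine exists_in (hbal v hv).2 ?_
    by_contra hcon
    push Not at hcon
    have h3 := hdeg v (hZU v hv)
    have e1 : (univ.filter (fun b => C.W v b ≠ 0)) = ∅ :=
      Finset.filter_eq_empty_iff.2 fun b _ => by simp [hcon.1 b]
    have e2 : (univ.filter (fun a => C.W a v ≠ 0)) = ∅ :=
      Finset.filter_eq_empty_iff.2 fun b _ => by simp [hcon.2 b]
    rw [e1, e2] at h3
    simp at h3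
  have hin : ∀ v : ι, ∃ a, v ∈ Z → C.W a v ≠ 0 := by
    intro v
    by_cases hv : v ∈ Z
    · obtain ⟨⟨a, ha⟩, _⟩ := hedge v hv
      exact ⟨a, fun _ => ha⟩
    · exact ⟨v, fun h => absurd h hv⟩
  choose r hr using hin
  -- all edges at a vertex of `Z` have nearly the same slope
  have nout : ∀ v ∈ Z, ∀ b, C.W v b ≠ 0 → |C.ux v b ^ 2 - C.ux (r v) v ^ 2| ≤ C.J v := by
    intro v hv b hb
    refine (sq_near (hunit _ _ hb) (hunit _ _ (hr v hv))).trans ?_
    exact C.oi (hbal v hv).1 (hbal v hv).2 hb (hr v hv)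
  have nin : ∀ v ∈ Z, ∀ a, C.W a v ≠ 0 → |C.ux a v ^ 2 - C.ux (r v) v ^ 2| ≤ C.J v := by
    intro v hv b hb
    refine (sq_near (hunit _ _ hb) (hunit _ _ (hr v hv))).trans ?_
    exact C.ii (v := v) (a := b) (c := r v)
  obtain ⟨t, ht1, ht2, ht3⟩ := gap Z (fun v => C.ux (r v) v ^ 2) (fun v => C.J v)
    (fun v _ => C.J_nonneg v) (α := 1 / 2) (β := 3 / 4) (by
      rw [← Finset.mul_sum]; linarith)
  set X := Z.filter (fun v => C.ux (r v) v ^ 2 + C.J v < t) with hX
  have hXZ : ∀ v ∈ X, v ∈ Z := fun v hv => (Finset.mem_filter.1 hv).1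
  have steep : ∀ a b, C.W a b ≠ 0 → C.ux a b ^ 2 < 3 / 4 → 1 / 2 ≤ C.uy a b := by
    intro a b hW h
    have h1 := hunit _ _ hW
    have h2 := C.uy_pos hW
    by_contra h3
    push Not at h3
    nlinarith
  have hXo : ∀ v ∈ X, ∀ b, C.W v b ≠ 0 → C.ux v b ^ 2 < t := by
    intro v hv b hb
    have := (abs_le.1 (nout v (hXZ v hv) b hb)).2
    linarith [(Finset.mem_filter.1 hv).2]
  have hXi : ∀ v ∈ X, ∀ a, C.W a v ≠ 0 → C.ux a v ^ 2 < t := by
    intro v hv b hb
    have := (abs_le.1 (nin v (hXZ v hv) b hb)).2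
    linarith [(Finset.mem_filter.1 hv).2]
  have hNo : ∀ v ∈ Z, v ∉ X → (∀ b, C.W v b ≠ 0 → t < C.ux v b ^ 2) ∧
      ∀ a, C.W a v ≠ 0 → t < C.ux a v ^ 2 := by
    intro v hv hvX
    have h1 : ¬ (C.ux (r v) v ^ 2 + C.J v < t) := fun h => hvX (Finset.mem_filter.2 ⟨hv, h⟩)
    have h2 : t < C.ux (r v) v ^ 2 - C.J v := (ht3 v hv).resolve_right h1
    exact ⟨fun b hb => by have := (abs_le.1 (nout v hv b hb)).1; linarith,
      fun b hb => by have := (abs_le.1 (nin v hv b hb)).1; linarith⟩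
  have hgood : ∀ v ∈ X, Good C v := by
    intro v hv
    have hvZ := hXZ v hv
    have so : ∀ b, C.W v b ≠ 0 → 1 / 2 ≤ C.uy v b := fun b hb =>
      steep _ _ hb (by linarith [hXo v hv b hb])
    have si : ∀ a, C.W a v ≠ 0 → 1 / 2 ≤ C.uy a v := fun a ha =>
      steep _ _ ha (by linarith [hXi v hv a ha])
    set So := univ.filter (fun b => C.W v b ≠ 0) with hSo
    set Si := univ.filter (fun a => C.W a v ≠ 0) with hSi
    set m := C.uy (r v) v with hm
    have hm2 : 1 / 2 ≤ m := si _ (hr v hvZ)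
    have hJv := hJlt v hvZ
    have hJ0 := C.J_nonneg v
    have do_ : ∀ b ∈ So, |C.uy v b - m| ≤ 4 * C.J v := by
      intro b hb
      have hb : C.W v b ≠ 0 := (Finset.mem_filter.1 hb).2
      have h1 := uy_diff (hunit _ _ hb) (hunit _ _ (hr v hvZ)) (so b hb) (si _ (hr v hvZ))
      have h2 := ux_le_K (hunit _ _ hb) (hunit _ _ (hr v hvZ)) (so b hb) (si _ (hr v hvZ))
      have h3 := C.oi (hbal v hvZ).1 (hbal v hvZ).2 hb (hr v hvZ)
      unfold Cfg.K at h3
      linarith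
    have di : ∀ a ∈ Si, |C.uy a v - m| ≤ 4 * C.J v := by
      intro b hb
      have hb : C.W b v ≠ 0 := (Finset.mem_filter.1 hb).2
      have h1 := uy_diff (hunit _ _ hb) (hunit _ _ (hr v hvZ)) (si b hb) (si _ (hr v hvZ))
      have h2 := ux_le_K (hunit _ _ hb) (hunit _ _ (hr v hvZ)) (si b hb) (si _ (hr v hvZ))
      have h3 := C.ii (v := v) (a := b) (c := r v)
      unfold Cfg.K at h3
      linarith
    have hOy : C.Oy v = ∑ b ∈ So, C.uy v b := by
      unfold Cfg.Oy
      rw [hSo, Finset.sum_filter]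
      refine Finset.sum_congr rfl fun b _ => ?_
      split_ifs with h
      · rfl
      · push Not at h; exact uy0 h
    have hIy : C.Iy v = ∑ a ∈ Si, C.uy a v := by
      unfold Cfg.Iy
      rw [hSi, Finset.sum_filter]
      refine Finset.sum_congr rfl fun b _ => ?_
      split_ifs with h
      · rfl
      · push Not at h; exact uy0 h
    have hOI : C.Oy v = C.Iy v := by
      have := (hbal v hvZ).2; unfold Cfg.Dy at this; linarith
    have o1 : (So.card : ℝ) * (m - 4 * C.J v) ≤ C.Oy v := by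
      rw [hOy, ← nsmul_eq_mul, ← Finset.sum_const]
      exact Finset.sum_le_sum fun b hb => by linarith [(abs_le.1 (do_ b hb)).1]
    have o2 : C.Oy v ≤ (So.card : ℝ) * (m + 4 * C.J v) := by
      rw [hOy, ← nsmul_eq_mul, ← Finset.sum_const]
      exact Finset.sum_le_sum fun b hb => by linarith [(abs_le.1 (do_ b hb)).2]
    have i1 : (Si.card : ℝ) * (m - 4 * C.J v) ≤ C.Iy v := by
      rw [hIy, ← nsmul_eq_mul, ← Finset.sum_const]
      exact Finset.sum_le_sum fun b hb => by linarith [(abs_le.1 (di b hb)).1]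
    have i2 : C.Iy v ≤ (Si.card : ℝ) * (m + 4 * C.J v) := by
      rw [hIy, ← nsmul_eq_mul, ← Finset.sum_const]
      exact Finset.sum_le_sum fun b hb => by linarith [(abs_le.1 (di b hb)).2]
    have o3 : (So.card : ℝ) * (1 / 2) ≤ I := by
      refine le_trans ?_ ((C.Oy_le v).trans hTy)
      rw [hOy, ← nsmul_eq_mul, ← Finset.sum_const]
      exact Finset.sum_le_sum fun b hb => so b (Finset.mem_filter.1 hb).2
    have i3 : (Si.card : ℝ) * (1 / 2) ≤ I := by
      refine le_trans ?_ ((C.Iy_le v).trans hTy)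
      rw [hIy, ← nsmul_eq_mul, ← Finset.sum_const]
      exact Finset.sum_le_sum fun b hb => si b (Finset.mem_filter.1 hb).2
    have hsmall : 4 * C.J v * (4 * I + 1) < 1 / 2 := by
      have h1 : 4 * C.J v * (4 * I + 1) ≤ 4 * τ * (4 * I + 1) :=
        mul_le_mul_of_nonneg_right (by linarith) (by linarith)
      have h2 : 4 * τ * (4 * I + 1) ≤ 16 * (τ * (I + 1)) := by nlinarith
      rw [hτI] at h2
      linarith
    have hc : So.card = Si.card := by
      rcases lt_trichotomy So.card Si.card with h | h | h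
      · exfalso
        have h1 : (So.card : ℝ) + 1 ≤ Si.card := by exact_mod_cast h
        have hm4 : 0 ≤ m - 4 * C.J v := by nlinarith
        have h2 : ((So.card : ℝ) + 1) * (m - 4 * C.J v) ≤ So.card * (m + 4 * C.J v) := by
          refine le_trans (mul_le_mul_of_nonneg_right h1 hm4) ?_
          linarith
        have h3 : 4 * C.J v * (2 * So.card + 1) ≤ 4 * C.J v * (4 * I + 1) :=
          mul_le_mul_of_nonneg_left (by linarith) (by linarith)
        nlinarith
      · exact h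
      · exfalso
        have h1 : (Si.card : ℝ) + 1 ≤ So.card := by exact_mod_cast h
        have hm4 : 0 ≤ m - 4 * C.J v := by nlinarith
        have h2 : ((Si.card : ℝ) + 1) * (m - 4 * C.J v) ≤ Si.card * (m + 4 * C.J v) := by
          refine le_trans (mul_le_mul_of_nonneg_right h1 hm4) ?_
          linarith
        have h3 : 4 * C.J v * (2 * Si.card + 1) ≤ 4 * C.J v * (4 * I + 1) :=
          mul_le_mul_of_nonneg_left (by linarith) (by linarith)
        nlinarith
    have h3 : 3 ≤ So.card + Si.card := hdeg v (hZU v hvZ)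
    refine ⟨(hbal v hvZ).1, (hbal v hvZ).2, ?_, ?_, so, si⟩
    · rw [Finset.sum_boole, Finset.sum_boole]
      exact_mod_cast hc
    · have h4 : 1 < Si.card := by omega
      obtain ⟨a, ha, c, hc', hac⟩ := Finset.one_lt_card.1 h4
      exact ⟨a, c, hac, (Finset.mem_filter.1 ha).2, (Finset.mem_filter.1 hc').2⟩
  have hPX : Z.filter P ⊆ X := by
    intro v hv
    obtain ⟨hvZ, hvP⟩ := Finset.mem_filter.1 hv
    by_contra hvX
    obtain ⟨h1, h2⟩ := hNo v hvZ hvX
    rcases hP v hvP with ⟨b, hb, hb'⟩ | ⟨b, hb, hb'⟩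
    · linarith [h1 b hb]
    · linarith [h2 b hb]
  have hBin : (Bin C X).card ≤ ⌊2 * I⌋₊ := by
    apply Nat.le_floor
    have h1 : ((Bin C X).card : ℝ) * (1 / 2) ≤ ∑ e ∈ Bin C X, C.uy e.1 e.2 := by
      rw [← nsmul_eq_mul, ← Finset.sum_const]
      refine Finset.sum_le_sum fun e he => ?_
      obtain ⟨_, h2, h3⟩ := (mem_Bin C).1 he
      exact (hgood _ h2).si _ h3
    have h2 := Cfg.chi_le (fun a b => C.uy a b) (fun w => if C.y w ≤ C.y f then (1:ℝ) else 0)
      (fun w => by split_ifs <;> norm_num) (fun w => by split_ifs <;> norm_num)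
    have h3 : ∑ e ∈ Bin C X, C.uy e.1 e.2 ≤ ∑ a, ∑ b, C.uy a b *
        ((if C.y a ≤ C.y f then (1:ℝ) else 0) - (if C.y b ≤ C.y f then (1:ℝ) else 0)) := by
      rw [sum_Bin C X C.uy (fun a b h => uy0 h)]
      refine Finset.sum_le_sum fun a _ => Finset.sum_le_sum fun b _ => ?_
      by_cases hW : C.W a b = 0
      · rw [uy0 hW]; simp
      have hab := C.W_up a b hW
      have hu := C.uy_nonneg a b
      by_cases hc : a ∉ X ∧ b ∈ X
      · rw [if_pos hc]
        have hbf : C.y f < C.y b := hfZ b (hXZ b hc.2)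
        have haf : C.y a ≤ C.y f := by
          rcases hlow b (hXZ b hc.2) a (Finset.mem_univ a) hab with h | h
          · exfalso
            have h5 := (hNo a h hc.1).1 b hW
            have h6 := hXi b hc.2 a hW
            linarith
          · exact h
        rw [if_pos haf, if_neg (not_le.2 hbf)]
        linarith
      · rw [if_neg hc]
        by_cases h3 : C.y b ≤ C.y f
        · rw [if_pos h3, if_pos (by linarith)]; simp
        · rw [if_neg h3]
          split_ifs <;> simp [hu]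
    have h4 : C.Ty ≤ I := hTy
    have h5 : ∑ w, |(∑ b, C.uy w b) - ∑ a, C.uy a w| = C.Ty := rfl
    rw [h5] at h2
    linarith
  exact (Finset.card_le_card hPX).trans (main hunit _ X hgood hBin)

end Pool.Agent.R761.GN
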